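import Pool.Agent.R592.Ba.Defs

open Cardinal Set Pool.Agent.R592.Ba Filter Topology

namespace Pool.Agent.R984.Ba

theorem agree_symm {n : ℕ} {x y : X} (h : Agree n x y) : Agree n y x := fun i hi => (h i hi).symm

theorem agree_trans {n : ℕ} {x y z : X} (h : Agree n x y) (k : Agree n y z) : Agree n x z :=
  fun i hi => (h i hi).trans (k i hi)

theorem agree_mono {n m : ℕ} (hnm : n ≤ m) {x y : X} (h : Agree m x y) : Agree n x y :=
  fun i hi => h i (lt_of_lt_of_le hi hnm)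

/-- `S` depends only on the first `M` coordinates -/
def Dep (M : ℕ) (S : Set X) : Prop := ∀ x y, Agree M x y → x ∈ S → y ∈ S

theorem dep_clopen {M : ℕ} {S : Set X} (h : Dep M S) : IsClopen S := by
  let tr : X → (Fin M → Bool) := fun x i => x i
  have hc : Continuous tr := by fun_prop
  have hS : S = tr ⁻¹' (tr '' S) := by
    ext x
    constructor
    · intro hx; exact ⟨x, hx, rfl⟩
    · rintro ⟨y, hy, hxy⟩
      refine h y x (fun i hi => ?_) hy
      exact congrFun hxy ⟨i, hi⟩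
  rw [hS]
  exact (isClopen_discrete _).preimage hc

theorem dep_mono {M M' : ℕ} (h : M ≤ M') {S : Set X} (hS : Dep M S) : Dep M' S :=
  fun x y hxy hx => hS x y (agree_mono h hxy) hx

theorem agree_nhds (n : ℕ) (x : X) : ∀ᶠ y in 𝓝 x, Agree n x y := by
  have : IsClopen {y | Agree n x y} := by
    apply dep_clopen (M := n)
    intro y z hyz hy
    exact agree_trans hy hyz
  exact this.isOpen.mem_nhds (fun i _ => rfl)

theorem unif {F : Set X} (hF : IsClosed F) {φ : X → X} (hφ : ContinuousOn φ F) (n : ℕ) :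
    ∃ M, ∀ x ∈ F, ∀ x' ∈ F, Agree M x x' → Agree n (φ x) (φ x') := by
  by_contra hcon
  push Not at hcon
  choose x hx x' hx' hag hno using hcon
  obtain ⟨a, ha, ψ, hψ, hlim⟩ := hF.isCompact.tendsto_subseq hx
  have hlim' : Tendsto (x' ∘ ψ) atTop (𝓝 a) := by
    rw [tendsto_pi_nhds]
    intro i
    have h1 := (tendsto_pi_nhds.1 hlim i)
    refine h1.congr' ?_
    filter_upwards [eventually_gt_atTop i] with k hk
    exact hag (ψ k) i (lt_of_lt_of_le hk (hψ.id_le k))
  have hc := hφ a ha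
  have h1 : Tendsto (fun k => φ (x (ψ k))) atTop (𝓝 (φ a)) :=
    hc.tendsto.comp (tendsto_nhdsWithin_iff.2 ⟨hlim, Eventually.of_forall fun k => hx _⟩)
  have h2 : Tendsto (fun k => φ (x' (ψ k))) atTop (𝓝 (φ a)) :=
    hc.tendsto.comp (tendsto_nhdsWithin_iff.2 ⟨hlim', Eventually.of_forall fun k => hx' _⟩)
  obtain ⟨k, hk1, hk2⟩ := ((h1.eventually (agree_nhds n (φ a))).and
    (h2.eventually (agree_nhds n (φ a)))).exists
  exact hno (ψ k) (agree_trans (agree_symm hk1) hk2)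

theorem clopen_dep {U : Set X} (hU : IsClopen U) : ∃ M, Dep M U := by
  classical
  have hc : Continuous (fun x : X => (fun _ => decide (x ∈ U) : X)) := by
    refine continuous_pi fun _ => ?_
    rw [continuous_discrete_rng]
    intro b
    cases b
    · have : (fun x : X => decide (x ∈ U)) ⁻¹' {false} = Uᶜ := by
        ext x; simp
      rw [this]; exact hU.compl.isOpen
    · have : (fun x : X => decide (x ∈ U)) ⁻¹' {true} = U := by
        ext x; simp
      rw [this]; exact hU.isOpen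
  obtain ⟨M, hM⟩ := unif isClosed_univ hc.continuousOn 1
  refine ⟨M, fun x y hxy hx => ?_⟩
  have h := hM x trivial y trivial hxy 0 one_pos
  have h2 : decide (x ∈ U) = true := decide_eq_true hx
  have h3 : decide (y ∈ U) = true := h.symm.trans h2
  exact of_decide_eq_true h3

/-- partitions into cylinders -/
def Part (n r : ℕ) (S : Set X) : Prop :=
  ∃ s : Fin r → List Bool, (∀ j, n ≤ (s j).length) ∧ (∀ j, cyl (s j) ⊆ S) ∧
    (∀ x ∈ S, ∃ j, x ∈ cyl (s j)) ∧ ∀ j j', j ≠ j' → Disjoint (cyl (s j)) (cyl (s j'))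

theorem mem_cyl_append (l : List Bool) (b : Bool) (x : X) :
    x ∈ cyl (l ++ [b]) ↔ x ∈ cyl l ∧ x l.length = b := by
  constructor
  · intro h
    refine ⟨fun i hi => ?_, ?_⟩
    · have := h i (by simp; omega)
      rw [this, List.getElem_append_left hi]
    · have := h l.length (by simp)
      rw [this]
      simp
  · rintro ⟨h1, h2⟩ i hi
    by_cases hil : i < l.length
    · rw [List.getElem_append_left hil]; exact h1 i hil
    · have : i = l.length := by simp at hi; omega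
      subst this
      rw [h2]; simp

theorem part_succ {n r : ℕ} {S : Set X} (h : Part n (r + 1) S) : Part n (r + 2) S := by
  obtain ⟨s, h1, h2, h3, h4⟩ := h
  let s' : Fin (r + 2) → List Bool :=
    Fin.cons (s 0 ++ [false]) (Function.update s 0 (s 0 ++ [true]))
  have hs0 : s' 0 = s 0 ++ [false] := rfl
  have hs1 : s' (Fin.succ 0) = s 0 ++ [true] := by
    simp [s']
  have hs2 : ∀ j : Fin (r + 1), j ≠ 0 → s' (Fin.succ j) = s j := by
    intro j hj
    change (Fin.cons (s 0 ++ [false]) (Function.update s 0 (s 0 ++ [true])) :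
      Fin (r + 2) → List Bool) (Fin.succ j) = s j
    rw [Fin.cons_succ, Function.update_of_ne hj]
  have hsub : ∀ j : Fin (r + 2), ∃ k : Fin (r + 1), cyl (s' j) ⊆ cyl (s k) ∧
      n ≤ (s' j).length := by
    intro j
    refine Fin.cases ?_ (fun k => ?_) j
    · refine ⟨0, fun x hx => ?_, ?_⟩
      · rw [hs0] at hx
        exact ((mem_cyl_append _ _ _).1 hx).1
      · rw [hs0]; have := h1 0; simp; omega
    · by_cases hk : k = 0
      · subst hk
        refine ⟨0, fun x hx => ?_, ?_⟩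
        · rw [hs1] at hx
          exact ((mem_cyl_append _ _ _).1 hx).1
        · rw [hs1]; have := h1 0; simp; omega
      · rw [hs2 k hk]
        exact ⟨k, subset_rfl, h1 k⟩
  refine ⟨s', fun j => ?_, fun j => ?_, fun x hx => ?_, ?_⟩
  · obtain ⟨k, hk⟩ := hsub j; exact hk.2
  · obtain ⟨k, hk⟩ := hsub j; exact hk.1.trans (h2 k)
  · obtain ⟨j, hj⟩ := h3 x hx
    by_cases hj0 : j = 0
    · subst hj0
      cases hb : x (s 0).length
      · exact ⟨0, by rw [hs0]; exact (mem_cyl_append _ _ _).2 ⟨hj, hb⟩⟩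
      · exact ⟨Fin.succ 0, by rw [hs1]; exact (mem_cyl_append _ _ _).2 ⟨hj, hb⟩⟩
    · exact ⟨Fin.succ j, by rw [hs2 j hj0]; exact hj⟩
  · -- disjointness
    have key : ∀ (x : X) (j j' : Fin (r + 2)), x ∈ cyl (s' j) → x ∈ cyl (s' j') → j = j' := by
      -- the index of the block
      have hidx : ∀ (x : X) (j : Fin (r + 2)), x ∈ cyl (s' j) →
          (j = 0 ∧ x ∈ cyl (s 0) ∧ x (s 0).length = false) ∨
          (j = Fin.succ 0 ∧ x ∈ cyl (s 0) ∧ x (s 0).length = true) ∨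
          (∃ k : Fin (r + 1), k ≠ 0 ∧ j = Fin.succ k ∧ x ∈ cyl (s k)) := by
        intro x j
        refine Fin.cases ?_ (fun k => ?_) j
        · intro hx
          rw [hs0] at hx
          exact Or.inl ⟨rfl, (mem_cyl_append _ _ _).1 hx⟩
        · intro hx
          by_cases hk : k = 0
          · subst hk
            rw [hs1] at hx
            exact Or.inr (Or.inl ⟨rfl, (mem_cyl_append _ _ _).1 hx⟩)
          · rw [hs2 k hk] at hx
            exact Or.inr (Or.inr ⟨k, hk, rfl, hx⟩)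
      have huniq : ∀ (x : X) (k k' : Fin (r + 1)), x ∈ cyl (s k) → x ∈ cyl (s k') → k = k' := by
        intro x k k' hk hk'
        by_contra hne
        exact (Set.disjoint_left.1 (h4 k k' hne)) hk hk'
      intro x j j' hj hj'
      rcases hidx x j hj with ⟨a1, a2, a3⟩ | ⟨a1, a2, a3⟩ | ⟨k, a0, a1, a2⟩ <;>
      rcases hidx x j' hj' with ⟨b1, b2, b3⟩ | ⟨b1, b2, b3⟩ | ⟨k', b0, b1, b2⟩
      · rw [a1, b1]
      · rw [a3] at b3; exact absurd b3 (by decide)
      · exact absurd (huniq x _ _ b2 a2) b0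
      · rw [a3] at b3; exact absurd b3 (by decide)
      · rw [a1, b1]
      · exact absurd (huniq x _ _ b2 a2) b0
      · exact absurd (huniq x _ _ a2 b2) a0
      · exact absurd (huniq x _ _ a2 b2) a0
      · rw [a1, b1, huniq x _ _ a2 b2]
    intro j j' hne
    rw [Set.disjoint_left]
    intro x hx hx'
    exact hne (key x j j' hx hx')

theorem part_mono {n p : ℕ} {S : Set X} (hp : 1 ≤ p) (h : Part n p S) (r : ℕ) (hr : p ≤ r) :
    Part n r S := by
  induction r, hr using Nat.le_induction with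
  | base => exact h
  | succ r hpr ih =>
    obtain ⟨k, rfl⟩ : ∃ k, r = k + 1 := ⟨r - 1, by omega⟩
    exact part_succ ih

theorem mem_cyl_ofFn {M : ℕ} (a : Fin M → Bool) (x : X) :
    x ∈ cyl (List.ofFn a) ↔ ∀ i : Fin M, x i = a i := by
  constructor
  · intro h i
    have := h i (by simp)
    rw [this]; simp
  · intro h i hi
    have hi' : i < M := by simpa using hi
    rw [h ⟨i, hi'⟩]; simp

theorem part_exists {n M : ℕ} (hn : n ≤ M) {S : Set X} (hS : Dep M S) (hne : S.Nonempty) :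
    ∃ p, 1 ≤ p ∧ Part n p S := by
  classical
  let ext : (Fin M → Bool) → X := fun a i => if h : i < M then a ⟨i, h⟩ else false
  let T : Finset (Fin M → Bool) := Finset.univ.filter fun a => ext a ∈ S
  have hTx : ∀ x ∈ S, (fun i : Fin M => x i) ∈ T := by
    intro x hx
    simp only [T, Finset.mem_filter, Finset.mem_univ, true_and]
    refine hS x _ (fun i hi => ?_) hx
    simp [ext, hi]
  have hTa : ∀ a ∈ T, ∀ x : X, (∀ i : Fin M, x i = a i) → x ∈ S := by
    intro a ha x hx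
    simp only [T, Finset.mem_filter, Finset.mem_univ, true_and] at ha
    refine hS _ x (fun i hi => ?_) ha
    simp only [ext, hi, dif_pos]
    exact (hx ⟨i, hi⟩).symm
  refine ⟨T.card, ?_, ?_⟩
  · obtain ⟨x, hx⟩ := hne
    exact Finset.card_pos.2 ⟨_, hTx x hx⟩
  · let e : Fin T.card ≃ T := T.equivFin.symm
    refine ⟨fun j => List.ofFn (e j : Fin M → Bool), fun j => by simpa using hn,
      fun j x hx => ?_, fun x hx => ?_, fun j j' hne => ?_⟩
    · exact hTa _ (e j).2 x ((mem_cyl_ofFn _ _).1 hx)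
    · refine ⟨e.symm ⟨_, hTx x hx⟩, ?_⟩
      rw [mem_cyl_ofFn]
      intro i
      simp
    · rw [Set.disjoint_left]
      intro x hx hx'
      have h1 := (mem_cyl_ofFn _ _).1 hx
      have h2 := (mem_cyl_ofFn _ _).1 hx'
      apply hne
      apply e.injective
      apply Subtype.ext
      funext i
      rw [← h1 i, ← h2 i]

theorem split : Split := by
  classical
  intro U V F G φ ψ hU hV neU neV cF cG FU GV nF nG kφ kψ mφ mψ lφ lψ n
  obtain ⟨M1, hM1⟩ := clopen_dep hU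
  obtain ⟨M2, hM2⟩ := clopen_dep hV
  obtain ⟨M3, hM3⟩ := unif cF kφ n
  obtain ⟨M4, hM4⟩ := unif cG kψ n
  have miss : ∀ (U F : Set X), IsClopen U → U.Nonempty → IsClosed F → interior F = ∅ →
      ∃ (M : ℕ) (x : X), x ∈ U ∧ ∀ y, Agree M x y → y ∉ F := by
    intro U F hU neU cF nF
    obtain ⟨x, hxU, hxF⟩ : ∃ x ∈ U, x ∉ F := by
      by_contra hcon
      push Not at hcon
      have h1 : U ⊆ interior F := interior_maximal hcon hU.isOpen
      rw [nF] at h1
      obtain ⟨x, hx⟩ := neU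
      exact h1 hx
    by_contra hcon
    push Not at hcon
    choose y hy1 hy2 using fun M => hcon M x hxU
    have hlim : Tendsto y atTop (𝓝 x) := by
      rw [tendsto_pi_nhds]
      intro i
      refine tendsto_const_nhds.congr' ?_
      filter_upwards [eventually_gt_atTop i] with k hk
      exact hy1 k i hk
    exact hxF (cF.mem_of_tendsto hlim (Eventually.of_forall hy2))
  obtain ⟨M5, x5, hx5, hM5⟩ := miss U F hU neU cF nF
  obtain ⟨M6, x6, hx6, hM6⟩ := miss V G hV neV cG nG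
  obtain ⟨M, hn, h1, h2, h3, h4, h5, h6⟩ : ∃ M, n ≤ M ∧ M1 ≤ M ∧ M2 ≤ M ∧ M3 ≤ M ∧ M4 ≤ M ∧
      M5 ≤ M ∧ M6 ≤ M :=
    ⟨n + M1 + M2 + M3 + M4 + M5 + M6, by omega, by omega, by omega, by omega, by omega, by omega,
      by omega⟩
  have dU : Dep M U := dep_mono h1 hM1
  have dV : Dep M V := dep_mono h2 hM2
  have uφ : ∀ x ∈ F, ∀ x' ∈ F, Agree M x x' → Agree n (φ x) (φ x') :=
    fun x hx x' hx' h => hM3 x hx x' hx' (agree_mono h3 h)
  have uψ : ∀ x ∈ G, ∀ x' ∈ G, Agree M x x' → Agree n (ψ x) (ψ x') :=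
    fun x hx x' hx' h => hM4 x hx x' hx' (agree_mono h4 h)
  let RU : Set X := {x | x ∈ U ∧ ∀ x' ∈ F, ¬ Agree M x x'}
  let RV : Set X := {x | x ∈ V ∧ ∀ x' ∈ G, ¬ Agree M x x'}
  have dRU : Dep M RU := fun x y hxy hx => ⟨dU x y hxy hx.1, fun x' hx' h =>
    hx.2 x' hx' (agree_trans hxy h)⟩
  have dRV : Dep M RV := fun x y hxy hx => ⟨dV x y hxy hx.1, fun x' hx' h =>
    hx.2 x' hx' (agree_trans hxy h)⟩
  have nRU : RU.Nonempty := ⟨x5, hx5, fun x' hx' h => hM5 x' (agree_mono h5 h) hx'⟩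
  have nRV : RV.Nonempty := ⟨x6, hx6, fun x' hx' h => hM6 x' (agree_mono h6 h) hx'⟩
  obtain ⟨p, hp, Pp⟩ := part_exists hn dRU nRU
  obtain ⟨q, hq, Pq⟩ := part_exists hn dRV nRV
  obtain ⟨s, s1, s2, s3, s4⟩ := part_mono hp Pp (max p q) (le_max_left _ _)
  obtain ⟨t, t1, t2, t3, t4⟩ := part_mono hq Pq (max p q) (le_max_right _ _)
  let ι : Type := {ab : (Fin n → Bool) × (Fin n → Bool) //
    ∃ x ∈ F, (∀ i : Fin n, x i = ab.1 i) ∧ ∀ i : Fin n, φ x i = ab.2 i}
  let P : ι → Set X := fun ab => {x | ∃ x' ∈ F, Agree M x x' ∧ (∀ i : Fin n, x' i = ab.1.1 i) ∧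
    ∀ i : Fin n, φ x' i = ab.1.2 i}
  let Q : ι → Set X := fun ab => {y | ∃ y' ∈ G, Agree M y y' ∧
    (∀ i : Fin n, ψ y' i = ab.1.1 i) ∧ ∀ i : Fin n, y' i = ab.1.2 i}
  have toF : ∀ x' ∈ F, ∃ i : ι, ∀ x, Agree M x x' → x ∈ P i := by
    intro x' hx'
    refine ⟨⟨(fun i => x' i, fun i => φ x' i), x', hx', fun i => rfl, fun i => rfl⟩, ?_⟩
    intro x hx
    exact ⟨x', hx', hx, fun i => rfl, fun i => rfl⟩
  have toG : ∀ y' ∈ G, ∃ i : ι, ∀ y, Agree M y y' → y ∈ Q i := by
    intro y' hy'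
    refine ⟨⟨(fun i => ψ y' i, fun i => y' i), ψ y', mψ y' hy', fun i => rfl, fun i => ?_⟩, ?_⟩
    · rw [lψ y' hy']
    · intro y hy
      exact ⟨y', hy', hy, fun i => rfl, fun i => rfl⟩
  refine ⟨ι, P, Q, Fin (max p q), s, t, ?_, ?_, ?_, ?_, ?_, s1, t1, ?_, ?_, ?_, ?_, ?_, ?_, ?_, ?_,
    s4, t4, ?_, ?_, ?_, ?_⟩
  · intro i
    apply dep_clopen (M := M)
    rintro x y hxy ⟨x', a1, a2, a3, a4⟩
    exact ⟨x', a1, agree_trans (agree_symm hxy) a2, a3, a4⟩
  · intro i
    apply dep_clopen (M := M)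
    rintro x y hxy ⟨x', a1, a2, a3, a4⟩
    exact ⟨x', a1, agree_trans (agree_symm hxy) a2, a3, a4⟩
  · rintro ⟨ab, x, hx, a1, a2⟩
    exact ⟨x, hx, x, hx, fun i _ => rfl, a1, a2⟩
  · rintro i x ⟨x', a1, a2, a3, a4⟩ y ⟨y', b1, b2, b3, b4⟩ k hk
    rw [a2 k (by omega), b2 k (by omega), a3 ⟨k, hk⟩, b3 ⟨k, hk⟩]
  · rintro i x ⟨x', a1, a2, a3, a4⟩ y ⟨y', b1, b2, b3, b4⟩ k hk
    rw [a2 k (by omega), b2 k (by omega), a4 ⟨k, hk⟩, b4 ⟨k, hk⟩]
  · rintro i x ⟨x', a1, a2, a3, a4⟩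
    exact dU x' x (agree_symm a2) (FU a1)
  · rintro i x ⟨x', a1, a2, a3, a4⟩
    exact dV x' x (agree_symm a2) (GV a1)
  · intro j x hx
    exact (s2 j hx).1
  · intro j x hx
    exact (t2 j hx).1
  · intro x hx
    by_cases h : ∃ x' ∈ F, Agree M x x'
    · obtain ⟨x', hx', hag⟩ := h
      obtain ⟨i, hi⟩ := toF x' hx'
      exact Or.inl ⟨i, hi x hag⟩
    · push Not at h
      exact Or.inr (s3 x ⟨hx, h⟩)
  · intro x hx
    by_cases h : ∃ x' ∈ G, Agree M x x'
    · obtain ⟨x', hx', hag⟩ := h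
      obtain ⟨i, hi⟩ := toG x' hx'
      exact Or.inl ⟨i, hi x hag⟩
    · push Not at h
      exact Or.inr (t3 x ⟨hx, h⟩)
  · intro i i' hne
    rw [Set.disjoint_left]
    rintro x ⟨x', a1, a2, a3, a4⟩ ⟨y', b1, b2, b3, b4⟩
    apply hne
    have hag : Agree M x' y' := agree_trans (agree_symm a2) b2
    apply Subtype.ext
    apply Prod.ext
    · funext k
      rw [← a3 k, ← b3 k]
      exact hag k (lt_of_lt_of_le k.2 hn)
    · funext k
      rw [← a4 k, ← b4 k]
      exact uφ x' a1 y' b1 hag k k.2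
  · intro i i' hne
    rw [Set.disjoint_left]
    rintro x ⟨x', a1, a2, a3, a4⟩ ⟨y', b1, b2, b3, b4⟩
    apply hne
    have hag : Agree M x' y' := agree_trans (agree_symm a2) b2
    apply Subtype.ext
    apply Prod.ext
    · funext k
      rw [← a3 k, ← b3 k]
      exact uψ x' a1 y' b1 hag k k.2
    · funext k
      rw [← a4 k, ← b4 k]
      exact hag k (lt_of_lt_of_le k.2 hn)
  · intro i j
    rw [Set.disjoint_left]
    rintro x ⟨x', a1, a2, a3, a4⟩ hx
    exact (s2 j hx).2 x' a1 a2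
  · intro i j
    rw [Set.disjoint_left]
    rintro x ⟨x', a1, a2, a3, a4⟩ hx
    exact (t2 j hx).2 x' a1 a2
  · intro x hx i
    constructor
    · rintro ⟨x', a1, a2, a3, a4⟩
      refine ⟨φ x, mφ x hx, fun i _ => rfl, fun k => ?_, fun k => ?_⟩
      · rw [lφ x hx, ← a3 k]
        exact a2 k (lt_of_lt_of_le k.2 hn)
      · rw [← a4 k]
        exact uφ x hx x' a1 a2 k k.2
    · rintro ⟨y', b1, b2, b3, b4⟩
      refine ⟨x, hx, fun i _ => rfl, fun k => ?_, fun k => ?_⟩
      · rw [← b3 k]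
        have := uψ (φ x) (mφ x hx) y' b1 b2 k k.2
        rwa [lφ x hx] at this
      · rw [← b4 k]
        exact b2 k (lt_of_lt_of_le k.2 hn)
  · intro x hx
    obtain ⟨i, hi⟩ := toF x hx
    exact ⟨i, hi x fun i _ => rfl⟩

end Pool.Agent.R984.Ba
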